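import Pool.Agent.W_a3c811_h62.LA.CP

/-! The final stage: Frobenius, monodromy, degrees and positions on the realisations. -/

noncomputable section

namespace Pool.Agent.H62A

open Module Polynomial

universe uA uI v w

variable {A : Type uA} [Ring A] [Algebra ℚ A] {I : Type uI} {K : I → Type v}
    [∀ l, Field (K l)] [∀ l, CharZero (K l)] {V : I → Type w} [∀ l, AddCommGroup (V l)]
    [∀ l, Module (K l) (V l)] [∀ l, FiniteDimensional (K l) (V l)]

/-- Frobenius `f`, monodromy `n`, degree projectors `g w`, position projectors `s p` in a trace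
system. -/
structure Stage (T : TS A K V) where
  f : A
  n : A
  g : ℤ → A
  s : ℤ → A
  P : Finset ℤ
  q : ℚ
  g_idem : ∀ l w, T.ρ l (g w) * T.ρ l (g w) = T.ρ l (g w)
  s_idem : ∀ l p, T.ρ l (s p) * T.ρ l (s p) = T.ρ l (s p)
  s_orth : ∀ l p p', p ≠ p' → T.ρ l (s p) * T.ρ l (s p') = 0
  s_sum : ∀ l, ∑ p ∈ P, T.ρ l (s p) = 1
  gs : ∀ l w p, T.ρ l (g w) * T.ρ l (s p) = T.ρ l (s p) * T.ρ l (g w)
  fg : ∀ l w, T.ρ l f * T.ρ l (g w) = T.ρ l (g w) * T.ρ l f
  ng : ∀ l w, T.ρ l n * T.ρ l (g w) = T.ρ l (g w) * T.ρ l n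
  fs : ∀ l p, T.ρ l f * T.ρ l (s p) = T.ρ l (s p) * T.ρ l f
  ns : ∀ l p, T.ρ l n * T.ρ l (s p) = T.ρ l (s (p + 2)) * T.ρ l n
  nf : ∀ l, T.ρ l n * T.ρ l f = (q : K l) • (T.ρ l f * T.ρ l n)

namespace Stage

variable {T : TS A K V} (G : Stage T)

/-- weight monodromy in the theory `l` -/
def WM (l : I) : Prop :=
  ∀ (w : ℤ) (i : ℕ), Set.BijOn (T.ρ l G.n ^ i) (LinearMap.range (T.ρ l (G.g w * G.s (-i))))
    (LinearMap.range (T.ρ l (G.g w * G.s i)))

theorem stage_injOn {F : Type v} [Field F] {M : Type w} [AddCommGroup M] [Module F M]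
    [FiniteDimensional F M] (φ : Module.End F M) (U : Submodule F M)
    (h : finrank F U ≤ finrank F (U.map φ)) : Set.InjOn φ U := by
  have h1 := LinearMap.finrank_range_add_finrank_ker (φ.domRestrict U)
  rw [LinearMap.range_domRestrict] at h1
  have h2 : finrank F (LinearMap.ker (φ.domRestrict U)) = 0 := by omega
  have h3 : LinearMap.ker (φ.domRestrict U) = ⊥ := Submodule.finrank_eq_zero.1 h2
  intro x hx y hy hxy
  have h4 : (⟨x, hx⟩ : U) = ⟨y, hy⟩ := LinearMap.ker_eq_bot.1 h3 hxy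
  exact congrArg Subtype.val h4

theorem stage_finrank_map {F : Type v} [Field F] {M : Type w} [AddCommGroup M] [Module F M]
    [FiniteDimensional F M] (φ : Module.End F M) (U : Submodule F M)
    (h : Set.InjOn φ U) : finrank F (U.map φ) = finrank F U := by
  have h1 : Function.Injective (φ.domRestrict U) := by
    rintro ⟨x, hx⟩ ⟨y, hy⟩ hxy
    exact Subtype.ext (h hx hy hxy)
  rw [← LinearMap.range_domRestrict]
  exact LinearMap.finrank_range_of_inj h1

theorem stage_range_mul {F : Type v} [Field F] {M : Type w} [AddCommGroup M] [Module F M]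
    (φ ψ : Module.End F M) : LinearMap.range (φ * ψ) = (LinearMap.range ψ).map φ := by
  rw [Module.End.mul_eq_comp, LinearMap.range_comp]

theorem stage_range_mul_le {F : Type v} [Field F] {M : Type w} [AddCommGroup M] [Module F M]
    (φ ψ : Module.End F M) : LinearMap.range (φ * ψ) ≤ LinearMap.range φ := by
  rw [Module.End.mul_eq_comp]
  exact LinearMap.range_comp_le_range _ _

/-- the projector of degree `w` and position `p` -/
theorem stage_gs_idem (l : I) (w p : ℤ) :
    T.ρ l (G.g w * G.s p) * T.ρ l (G.g w * G.s p) = T.ρ l (G.g w * G.s p) := by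
  rw [map_mul]
  have h : T.ρ l (G.g w) * T.ρ l (G.s p) * (T.ρ l (G.g w) * T.ρ l (G.s p)) =
      T.ρ l (G.g w) * (T.ρ l (G.s p) * T.ρ l (G.g w)) * T.ρ l (G.s p) := by
    simp only [mul_assoc]
  rw [h, ← G.gs, ← mul_assoc, G.g_idem, mul_assoc, G.s_idem]

theorem stage_gs_rk (w p : ℤ) (l l0 : I) :
    TS.rk (T.ρ l (G.g w * G.s p)) = TS.rk (T.ρ l0 (G.g w * G.s p)) := by
  have h : ∀ l, (TS.rk (T.ρ l (G.g w * G.s p)) : ℚ) = T.t (G.g w * G.s p) := by
    intro l
    have h1 := TS.trace_idem (T.ρ l (G.g w * G.s p)) (G.stage_gs_idem l w p)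
    rw [T.tr] at h1
    exact_mod_cast h1.symm
  have h2 := (h l).trans (h l0).symm
  exact_mod_cast h2

/-- the monodromy operator moves the projector of position `p` to the one of position `p + 2` -/
theorem stage_n_gs (l : I) (w p : ℤ) :
    T.ρ l G.n * T.ρ l (G.g w * G.s p) = T.ρ l (G.g w * G.s (p + 2)) * T.ρ l G.n := by
  rw [map_mul, map_mul, ← mul_assoc, G.ng, mul_assoc, G.ns, mul_assoc]

theorem stage_pow_gs (l : I) (w p : ℤ) (i : ℕ) :
    T.ρ l G.n ^ i * T.ρ l (G.g w * G.s p) =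
      T.ρ l (G.g w * G.s (p + 2 * i)) * T.ρ l G.n ^ i := by
  induction i with
  | zero => simp
  | succ i ih =>
    have h : p + 2 * ((i + 1 : ℕ) : ℤ) = p + 2 * i + 2 := by
      push_cast
      ring
    rw [pow_succ', mul_assoc, ih, ← mul_assoc, G.stage_n_gs, mul_assoc, ← pow_succ', h]

theorem stage_pow_gs' (l : I) (w : ℤ) (i : ℕ) :
    T.ρ l G.n ^ i * T.ρ l (G.g w * G.s (-i)) =
      T.ρ l (G.g w * G.s i) * T.ρ l G.n ^ i := by
  have h := G.stage_pow_gs l w (-i) i
  have h2 : (-(i : ℤ)) + 2 * i = i := by ring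
  rw [h2] at h
  exact h

/-- The characteristic polynomial of Frobenius on the part of degree `w`
(`TS.charpoly_range` with `p = g w`). -/
theorem charpoly_deg (w : ℤ) :
    ∃ P : ℚ[X], ∀ l, CharpolyOn (T.ρ l G.f) (LinearMap.range (T.ρ l (G.g w))) P := by
  refine T.charpoly_range G.f (G.g w) (fun l => G.g_idem l w) ?_
  rintro l _ ⟨y, rfl⟩
  rw [← Module.End.mul_apply, G.fg, Module.End.mul_apply]
  exact ⟨_, rfl⟩

/-- The characteristic polynomial of Frobenius on the kernel of the monodromy operator in degree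
`w`, if the monodromy operator in degree `w` has a joint quasi-inverse `h`.

Proof. Let `y = n g` (`g = g w`), `y h y = y` in every theory. Then `1 - h y` is an idempotent with
range `ker y` and `ker y = (range g ∩ ker n) ⊕ ker g` (as `n g = g n`).  So `p = g (1 - h y)`: for
`x ∈ V`: `(1 - h y) x ∈ ker y`, so `g (1 - h y) x ∈ range g ∩ ker n` (`n g z = y z = 0`); for
`x ∈ range g ∩ ker n`: `y x = n g x = n x = 0`, so `p x = g x = x`.  So `p` is an idempotent with
range `range g ∩ ker n`, and Frobenius preserves it (`n f = q f n`, `f g = g f`).  Use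
`TS.charpoly_range`. -/
theorem charpoly_inv (w : ℤ) (h : A)
    (hh : ∀ l, T.ρ l (G.n * G.g w) * T.ρ l h * T.ρ l (G.n * G.g w) = T.ρ l (G.n * G.g w)) :
    ∃ P : ℚ[X], ∀ l, CharpolyOn (T.ρ l G.f)
      (LinearMap.range (T.ρ l (G.g w)) ⊓ LinearMap.ker (T.ρ l G.n)) P := by
  have hng : ∀ l x, T.ρ l G.n (T.ρ l (G.g w) x) = T.ρ l (G.g w) (T.ρ l G.n x) := by
    intro l x
    rw [← Module.End.mul_apply, G.ng, Module.End.mul_apply]
  have hgg : ∀ l x, T.ρ l (G.g w) (T.ρ l (G.g w) x) = T.ρ l (G.g w) x := by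
    intro l x
    rw [← Module.End.mul_apply, G.g_idem]
  have hy : ∀ l x, T.ρ l G.n (T.ρ l (G.g w) (T.ρ l h (T.ρ l G.n (T.ρ l (G.g w) x)))) =
      T.ρ l G.n (T.ρ l (G.g w) x) := by
    intro l x
    have h1 := LinearMap.congr_fun (hh l) x
    simpa only [map_mul, Module.End.mul_apply] using h1
  have hp : ∀ l x, T.ρ l (G.g w * (1 - h * (G.n * G.g w))) x =
      T.ρ l (G.g w) (x - T.ρ l h (T.ρ l G.n (T.ρ l (G.g w) x))) := by
    intro l x
    simp only [map_mul, map_sub, map_one, Module.End.mul_apply, LinearMap.sub_apply,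
      Module.End.one_apply]
  have h1 : ∀ l x, T.ρ l (G.g w * (1 - h * (G.n * G.g w))) x ∈
      LinearMap.range (T.ρ l (G.g w)) ⊓ LinearMap.ker (T.ρ l G.n) := by
    intro l x
    rw [hp]
    refine ⟨⟨_, rfl⟩, LinearMap.mem_ker.2 ?_⟩
    rw [map_sub, map_sub, hy, sub_self]
  have h2 : ∀ l x, x ∈ LinearMap.range (T.ρ l (G.g w)) ⊓ LinearMap.ker (T.ρ l G.n) →
      T.ρ l (G.g w * (1 - h * (G.n * G.g w))) x = x := by
    rintro l x ⟨⟨y, rfl⟩, hx⟩
    have hx' : T.ρ l G.n (T.ρ l (G.g w) y) = 0 := LinearMap.mem_ker.1 hx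
    rw [hp, hgg, hx', map_zero, sub_zero, hgg]
  have hr : ∀ l, LinearMap.range (T.ρ l (G.g w * (1 - h * (G.n * G.g w)))) =
      LinearMap.range (T.ρ l (G.g w)) ⊓ LinearMap.ker (T.ρ l G.n) := by
    intro l
    refine le_antisymm ?_ ?_
    · rintro _ ⟨x, rfl⟩
      exact h1 l x
    · intro x hx
      exact ⟨x, h2 l x hx⟩
  obtain ⟨P, hP⟩ := T.charpoly_range G.f (G.g w * (1 - h * (G.n * G.g w))) (by
    intro l
    ext x
    rw [Module.End.mul_apply]
    exact h2 l _ (h1 l x)) (by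
    intro l x hx
    rw [hr] at hx ⊢
    obtain ⟨⟨y, rfl⟩, hx2⟩ := hx
    refine ⟨⟨T.ρ l G.f y, ?_⟩, LinearMap.mem_ker.2 ?_⟩
    · rw [← Module.End.mul_apply, ← G.fg, Module.End.mul_apply]
    · have hx' : T.ρ l G.n (T.ρ l (G.g w) y) = 0 := LinearMap.mem_ker.1 hx2
      rw [← Module.End.mul_apply, G.nf, LinearMap.smul_apply,
        Module.End.mul_apply, hx', map_zero, smul_zero])
  refine ⟨P, fun l => ?_⟩
  rw [← hr l]
  exact hP l

/-- Weight monodromy in one pure theory implies weight monodromy in all theories.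

Proof. Fix `w`, `i`. Let `z = n ^ i * (g w * s (-i)) ∈ A`.  In every theory, `g w s p` is an
idempotent with trace `t (g w s p)`, so the ranks of `g w s p` do not depend on the theory
(`TS.trace_idem`).  In the theory `l0` the rank of `z` is the rank of `g w s (-i)`, and it is also
the rank of `g w s i`.  By `TS.rk_le` the rank of `z` in the theory `l` is at least that; so
`n ^ i` is injective on `range (g w s (-i))` (rank-nullity), maps it to `range (g w s i)` (by
`ns`, `ng`: `n ^ i s (-i) = s (-i + 2 i) n ^ i`), onto because of the dimensions. -/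
theorem wm_of_pure [Nonempty I] {l0 : I} (h0 : T.Pure l0) (hWM : G.WM l0) (l : I) : G.WM l := by
  intro w i
  have hz : ∀ l, T.ρ l (G.n ^ i * (G.g w * G.s (-i))) =
      T.ρ l G.n ^ i * T.ρ l (G.g w * G.s (-i)) := by
    intro l
    rw [map_mul, map_pow]
  have hrz : ∀ l, LinearMap.range (T.ρ l (G.n ^ i * (G.g w * G.s (-i)))) =
      (LinearMap.range (T.ρ l (G.g w * G.s (-i)))).map (T.ρ l G.n ^ i) := by
    intro l
    rw [hz, stage_range_mul]
  have hle : ∀ l, LinearMap.range (T.ρ l (G.n ^ i * (G.g w * G.s (-i)))) ≤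
      LinearMap.range (T.ρ l (G.g w * G.s i)) := by
    intro l
    rw [hz, G.stage_pow_gs']
    exact stage_range_mul_le _ _
  have hr1 : TS.rk (T.ρ l0 (G.n ^ i * (G.g w * G.s (-i)))) =
      TS.rk (T.ρ l0 (G.g w * G.s (-i))) := by
    unfold TS.rk
    rw [hrz]
    exact stage_finrank_map _ _ (hWM w i).injOn
  have hr2 : TS.rk (T.ρ l0 (G.n ^ i * (G.g w * G.s (-i)))) =
      TS.rk (T.ρ l0 (G.g w * G.s i)) := by
    unfold TS.rk
    have h1 : LinearMap.range (T.ρ l0 (G.n ^ i * (G.g w * G.s (-i)))) =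
        LinearMap.range (T.ρ l0 (G.g w * G.s i)) := by
      refine le_antisymm (hle l0) ?_
      intro y hy
      obtain ⟨x, hx, hxy⟩ := (hWM w i).surjOn hy
      rw [hrz]
      exact ⟨x, hx, hxy⟩
    rw [h1]
  have hge := T.rk_le (G.n ^ i * (G.g w * G.s (-i))) h0 l
  have hinj : Set.InjOn (T.ρ l G.n ^ i) (LinearMap.range (T.ρ l (G.g w * G.s (-i)))) := by
    refine stage_injOn _ _ ?_
    rw [← hrz]
    rw [hr1, G.stage_gs_rk w (-i) l0 l] at hge
    exact hge
  have heq : LinearMap.range (T.ρ l (G.n ^ i * (G.g w * G.s (-i)))) =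
      LinearMap.range (T.ρ l (G.g w * G.s i)) := by
    refine Submodule.eq_of_le_of_finrank_le (hle l) ?_
    rw [hr2, G.stage_gs_rk w i l0 l] at hge
    exact hge
  refine ⟨?_, hinj, ?_⟩
  · intro x hx
    refine hle l ?_
    rw [hrz]
    exact ⟨x, hx, rfl⟩
  · intro y hy
    have hy' : y ∈ LinearMap.range (T.ρ l (G.n ^ i * (G.g w * G.s (-i)))) := by
      rw [heq]
      exact hy
    rw [hrz] at hy'
    obtain ⟨x, hx, hxy⟩ := hy'
    exact ⟨x, hx, hxy⟩

/-- Weight monodromy in one pure theory: the monodromy operator in degree `w` and position `p` has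
the same rank in all theories.

Proof. `y = n (g w s p)` maps `range (g w s p)` to `range (g w s (p + 2))`. In every theory `l`,
`rk y ≤ min (rk (g w s p)) (rk (g w s (p + 2)))` and these ranks do not depend on the theory. In
the theory `l0` there is equality by weight monodromy: if `p ≤ -1`, `p = -i`, then `n ^ i` is
injective on `range (g w s p)`, `i ≥ 1`, so `n` is; if `p ≥ -1`, `p + 2 = i ≥ 1`, then
`n ^ i : range (g w s (-i)) → range (g w s i)` is surjective and factors through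
`n : range (g w s (i - 2)) → range (g w s i)`.  With `TS.rk_le`: `rk_l y ≥ rk_{l0} y = min ≥
rk_l y`. -/
theorem rk_const [Nonempty I] {l0 : I} (h0 : T.Pure l0) (hWM : G.WM l0) (w p : ℤ) (l : I) :
    TS.rk (T.ρ l (G.n * (G.g w * G.s p))) = TS.rk (T.ρ l0 (G.n * (G.g w * G.s p))) := by
  have hge := T.rk_le (G.n * (G.g w * G.s p)) h0 l
  refine le_antisymm ?_ hge
  have hry : ∀ l, LinearMap.range (T.ρ l (G.n * (G.g w * G.s p))) =
      (LinearMap.range (T.ρ l (G.g w * G.s p))).map (T.ρ l G.n) := by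
    intro l
    rw [map_mul, stage_range_mul]
  rcases le_total p (-1) with hp | hp
  · -- injectivity in the pure theory
    have h1 : TS.rk (T.ρ l (G.n * (G.g w * G.s p))) ≤ TS.rk (T.ρ l (G.g w * G.s p)) := by
      rw [map_mul]
      exact TS.reg_rk_mul_le _ _
    have h2 : TS.rk (T.ρ l0 (G.n * (G.g w * G.s p))) = TS.rk (T.ρ l0 (G.g w * G.s p)) := by
      unfold TS.rk
      rw [hry]
      refine stage_finrank_map _ _ ?_
      obtain ⟨j, hj⟩ : ∃ j : ℕ, p = -((j + 1 : ℕ) : ℤ) := ⟨(-p - 1).toNat, by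
        push_cast
        omega⟩
      have h3 := (hWM w (j + 1)).injOn
      rw [← hj] at h3
      intro x hx y hy hxy
      refine h3 hx hy ?_
      rw [pow_succ, Module.End.mul_apply, Module.End.mul_apply, hxy]
    rw [h2, G.stage_gs_rk w p l0 l]
    exact h1
  · -- surjectivity in the pure theory
    have hle : ∀ l, LinearMap.range (T.ρ l (G.n * (G.g w * G.s p))) ≤
        LinearMap.range (T.ρ l (G.g w * G.s (p + 2))) := by
      intro l
      rw [map_mul, G.stage_n_gs]
      exact stage_range_mul_le _ _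
    have h1 : TS.rk (T.ρ l (G.n * (G.g w * G.s p))) ≤ TS.rk (T.ρ l (G.g w * G.s (p + 2))) :=
      Submodule.finrank_mono (hle l)
    have h2 : TS.rk (T.ρ l0 (G.n * (G.g w * G.s p))) =
        TS.rk (T.ρ l0 (G.g w * G.s (p + 2))) := by
      unfold TS.rk
      have h3 : LinearMap.range (T.ρ l0 (G.n * (G.g w * G.s p))) =
          LinearMap.range (T.ρ l0 (G.g w * G.s (p + 2))) := by
        refine le_antisymm (hle l0) ?_
        obtain ⟨j, hj⟩ : ∃ j : ℕ, p + 2 = ((j + 1 : ℕ) : ℤ) := ⟨(p + 1).toNat, by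
          push_cast
          omega⟩
        intro y hy
        have h4 := (hWM w (j + 1)).surjOn
        rw [← hj] at h4
        obtain ⟨x, hx, hxy⟩ := h4 hy
        rw [hry]
        refine ⟨(T.ρ l0 G.n ^ j) x, ?_, ?_⟩
        · obtain ⟨z, rfl⟩ := hx
          rw [← Module.End.mul_apply, G.stage_pow_gs l0 w (-(p + 2)) j, Module.End.mul_apply]
          have h5 : -(p + 2) + 2 * (j : ℤ) = p := by
            push_cast at hj
            omega
          rw [h5]
          exact ⟨_, rfl⟩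
        · rw [← Module.End.mul_apply, ← pow_succ']
          exact hxy
      rw [h3]
    rw [h2, G.stage_gs_rk w (p + 2) l0 l]
    exact h1

/-- Weight monodromy in one pure theory: joint quasi-inverse of the monodromy operator in degree
`w`.

Proof. By `rk_const` and `TS.exists_regular_of_rk_eq` there are `h p` with
`y_p (h p) y_p = y_p`, `y_p = n (g w s p)`.  Let `y = n (g w)`; in every theory `y = ∑_{p ∈ P} y_p`
and `y_p = s (p + 2) y_p (g w s p)`.  Let `h = ∑_{p ∈ P} (g w s p) (h p) (s (p + 2))`.  Then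
`y_{p'} (g w s p) = 0` for `p' ≠ p` and `= y_p` for `p' = p`, and `s (p + 2) y_{p'} = 0` for
`p' ≠ p`, `= y_p` for `p' = p`; so `y h y = ∑_p y_p (h p) y_p = y`. -/
theorem exists_quasi_inverse [Nonempty I] {l0 : I} (h0 : T.Pure l0) (hWM : G.WM l0) (w : ℤ) :
    ∃ h : A, ∀ l, T.ρ l (G.n * G.g w) * T.ρ l h * T.ρ l (G.n * G.g w) = T.ρ l (G.n * G.g w) := by
  have hex : ∀ p : ℤ, ∃ h : A, ∀ l, T.ρ l (G.n * (G.g w * G.s p)) * T.ρ l h *
      T.ρ l (G.n * (G.g w * G.s p)) = T.ρ l (G.n * (G.g w * G.s p)) := fun p =>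
    T.exists_regular_of_rk_eq _ h0 (fun l => G.rk_const h0 hWM w p l)
  choose h hh using hex
  refine ⟨∑ p ∈ G.P, (G.g w * G.s p) * h p * G.s (p + 2), fun l => ?_⟩
  have h1 : ∀ p, T.ρ l (G.n * G.g w) * T.ρ l (G.g w * G.s p) =
      T.ρ l (G.n * (G.g w * G.s p)) := by
    intro p
    rw [map_mul, map_mul, map_mul, map_mul, mul_assoc, ← mul_assoc (T.ρ l (G.g w)), G.g_idem]
  have h2 : ∀ p, T.ρ l (G.s (p + 2)) * T.ρ l (G.n * G.g w) =
      T.ρ l (G.n * (G.g w * G.s p)) := by
    intro p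
    rw [map_mul, map_mul, map_mul, ← mul_assoc, ← G.ns, mul_assoc, ← G.gs]
  have h3 : T.ρ l (G.n * G.g w) = ∑ p ∈ G.P, T.ρ l (G.n * (G.g w * G.s p)) := by
    have h4 : T.ρ l (G.n * G.g w) = T.ρ l (G.n * G.g w) * ∑ p ∈ G.P, T.ρ l (G.s p) := by
      rw [G.s_sum, mul_one]
    rw [h4, Finset.mul_sum]
    refine Finset.sum_congr rfl fun p _ => ?_
    rw [map_mul, map_mul, map_mul, mul_assoc]
  rw [map_sum, Finset.mul_sum, Finset.sum_mul]
  refine Eq.trans ?_ h3.symm
  refine Finset.sum_congr rfl fun p _ => ?_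
  have h5 : T.ρ l ((G.g w * G.s p) * h p * G.s (p + 2)) =
      T.ρ l (G.g w * G.s p) * T.ρ l (h p) * T.ρ l (G.s (p + 2)) := by
    rw [map_mul (T.ρ l) (G.g w * G.s p * h p), map_mul (T.ρ l) (G.g w * G.s p)]
  rw [h5, ← mul_assoc, ← mul_assoc, h1, mul_assoc, h2, hh p l]

end Stage

end Pool.Agent.H62A
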