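import Mathlib

/-! The retract of a complex defined by a projector on its cohomology (one theory). -/

noncomputable section

namespace Pool.Agent.H62A

open Module

universe v w

variable {F : Type v} [Field F] {E V : Type w} [AddCommGroup E] [Module F E] [AddCommGroup V]
  [Module F V]

/-- Let `d d = 0`, `d h d = d`, `e d = d e`, `e e x - e x ∈ range d` for `x ∈ ker d`, and let
`u : E → V` map `ker d` onto `V` with `u x = 0 ↔ e x ∈ range d` for `x ∈ ker d`.  With
`P = 1 - h d` (projector onto `ker d`), `q = (1 - d h) P` and `Ω = q e q`, the map `U = u P` has a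
section `S` with `S U = Ω`.

Proof. `P` maps into `ker d` and is the identity on `ker d`; `d h` is the identity on `range d` and
maps into `range d ≤ ker d`; so `q` maps into `ker d`, kills `range d`, and `q x - x ∈ range d` for
`x ∈ ker d`.  `U` is surjective.  `ker U = ker Ω`: if `u (P x) = 0` then `e P x ∈ range d`, and
`q x = P x - d h P x`, so `Ω x = q e P x - q e d (h P x) = q e P x - q d (e h P x) = 0`.  Moreover
`U Ω = U`: `u` vanishes on `range d` (`e (d x) = d (e x) ∈ range d`), so for `y ∈ ker d`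
`u (q y) = u y`, and `u (e y) = u y` as `e (e y - y) ∈ range d`; so
`U Ω x = u (P q e q x) = u (q (e (q x))) = u (e (q x)) = u (q x) = u (q (P x)) = u (P x)`
(`q P = q`).  So `ker U = ker Ω` and `Ω` factors as `S U` with `S : V → E` linear
(`S (U x) = Ω x`; e.g. `S = Ω ∘ s` with a linear section `s` of `U`,
`LinearMap.exists_rightInverse_of_surjective`), and `U S U = U Ω = U`, so `U S = id`. -/
theorem exists_section (d h e : Module.End F E) (u : E →ₗ[F] V) (dd : d * d = 0)
    (dhd : d * h * d = d) (ed : e * d = d * e)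
    (e2 : ∀ x, d x = 0 → e (e x) - e x ∈ LinearMap.range d)
    (us : ∀ y, ∃ x, d x = 0 ∧ u x = y)
    (uk : ∀ x, d x = 0 → (u x = 0 ↔ e x ∈ LinearMap.range d)) :
    ∃ S : V →ₗ[F] E, (u ∘ₗ (1 - h * d)) ∘ₗ S = LinearMap.id ∧
      S ∘ₗ (u ∘ₗ (1 - h * d)) =
        ((1 - d * h) * (1 - h * d)) * e * ((1 - d * h) * (1 - h * d)) := by
  have hdd : ∀ x, d (d x) = 0 := fun x => by
    have := congrArg (fun g : Module.End F E => g x) dd
    simpa using this
  have hdhd : ∀ x, d (h (d x)) = d x := fun x => by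
    have := congrArg (fun g : Module.End F E => g x) dhd
    simpa using this
  have hed : ∀ x, e (d x) = d (e x) := fun x => by
    have := congrArg (fun g : Module.End F E => g x) ed
    simpa using this
  set P : Module.End F E := 1 - h * d with hPdef
  set Q : Module.End F E := (1 - d * h) * P with hQdef
  have hP : ∀ x, P x = x - h (d x) := fun x => by simp [hPdef]
  have hQ : ∀ x, Q x = P x - d (h (P x)) := fun x => by simp [hQdef]
  have dP : ∀ x, d (P x) = 0 := fun x => by rw [hP, map_sub, hdhd, sub_self]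
  have dQ : ∀ x, d (Q x) = 0 := fun x => by rw [hQ, map_sub, dP, hdd, sub_zero]
  have Pk : ∀ x, d x = 0 → P x = x := fun x hx => by rw [hP, hx, map_zero, sub_zero]
  have de : ∀ x, d x = 0 → d (e x) = 0 := fun x hx => by rw [← hed, hx, map_zero]
  have Qd : ∀ x, Q (d x) = 0 := fun x => by
    rw [hQ, Pk _ (hdd x), hdhd, sub_self]
  have ud : ∀ x, u (d x) = 0 := fun x =>
    (uk (d x) (hdd x)).2 ⟨e x, (hed x).symm⟩
  have uQ : ∀ x, u (Q x) = u (P x) := fun x => by rw [hQ, map_sub, ud, sub_zero]
  have ue : ∀ x, d x = 0 → u (e x) = u x := fun x hx => by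
    have h1 : u (e x - x) = 0 := by
      refine (uk (e x - x) ?_).2 ?_
      · rw [map_sub, de x hx, hx, sub_zero]
      · rw [map_sub]
        exact e2 x hx
    rw [map_sub, sub_eq_zero] at h1
    exact h1
  set U : E →ₗ[F] V := u ∘ₗ P with hUdef
  have hU : ∀ x, U x = u (P x) := fun x => rfl
  set Om : Module.End F E := Q * e * Q with hOmdef
  have hOm : ∀ x, Om x = Q (e (Q x)) := fun x => rfl
  have UOm : ∀ x, U (Om x) = U x := fun x => by
    rw [hU, hOm, Pk _ (dQ _), uQ, Pk _ (de _ (dQ x)), ue _ (dQ x), uQ, ← hU]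
  have kerU : ∀ x, U x = 0 → Om x = 0 := fun x hx => by
    rw [hU] at hx
    obtain ⟨y, hy⟩ := (uk (P x) (dP x)).1 hx
    rw [hOm, hQ x, map_sub, ← hy, hed, ← map_sub, Qd]
  have hsurj : Function.Surjective U := by
    intro y
    obtain ⟨x, hx, hxy⟩ := us y
    exact ⟨x, by rw [hU, Pk x hx, hxy]⟩
  obtain ⟨s, hs⟩ := LinearMap.exists_rightInverse_of_surjective U (LinearMap.range_eq_top.2 hsurj)
  have hs' : ∀ y, U (s y) = y := fun y => by
    have := congrArg (fun g : V →ₗ[F] V => g y) hs
    simpa using this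
  refine ⟨Om ∘ₗ s, ?_, ?_⟩
  · ext y
    show U (Om (s y)) = y
    rw [UOm, hs']
  · ext x
    show Om (s (U x)) = Om x
    have h1 : Om (s (U x) - x) = 0 := kerU _ (by rw [map_sub, hs', sub_self])
    rw [map_sub, sub_eq_zero] at h1
    exact h1

/-- If `T` preserves `ker d` and `u (T x) = θ (u x)` for `x ∈ ker d`, then
`θ U = U (T P)`, `P = 1 - h d`, `U = u P`: `U (T (P x)) = u (P (T (P x))) = u (T (P x)) =
θ (u (P x))`. -/
theorem comm_section (d h T : Module.End F E) (u : E →ₗ[F] V) (θ : Module.End F V)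
    (dhd : d * h * d = d) (hT : ∀ x, d x = 0 → d (T x) = 0)
    (hu : ∀ x, d x = 0 → u (T x) = θ (u x)) :
    θ ∘ₗ (u ∘ₗ (1 - h * d)) = (u ∘ₗ (1 - h * d)) ∘ₗ (T * (1 - h * d)) := by
  have hdhd : ∀ x, d (h (d x)) = d x := fun x => by
    have := congrArg (fun g : Module.End F E => g x) dhd
    simpa using this
  set P : Module.End F E := 1 - h * d with hPdef
  have hP : ∀ x, P x = x - h (d x) := fun x => by simp [hPdef]
  have dP : ∀ x, d (P x) = 0 := fun x => by rw [hP, map_sub, hdhd, sub_self]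
  have Pk : ∀ x, d x = 0 → P x = x := fun x hx => by rw [hP, hx, map_zero, sub_zero]
  ext x
  show θ (u (P x)) = u (P (T (P x)))
  rw [Pk _ (hT _ (dP x)), hu _ (dP x)]

end Pool.Agent.H62A
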