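import Pool.Agent.W_a3c811_h62.LA.Retract
import Pool.Agent.W_a3c811_h62.StDefs
import Pool.Agent.W_MP_a3c811_h79.Newton

/-! Characteristic polynomials from traces. -/

noncomputable section

namespace Pool.Agent.H62A

open Module Polynomial

universe uA uI v w

/-- Rational traces of all powers, independent of `l`, give a rational characteristic polynomial,
independent of `l`.

Proof. Newton's identities: over an algebraic closure of `K l` let `μ_1, ..., μ_n` be the roots of
the characteristic polynomial; `trace (θ ^ m) = ∑ μ_i ^ m = τ m`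
(`Module.End.trace_eq_sum_roots_charpoly_of_splits` / `Matrix.trace_eq_sum_roots_charpoly` and the
eigenvalues of powers; or triangularise), and the elementary symmetric functions satisfy
`j e_j = ∑_{i=1}^{j} (-1)^(i-1) e_(j-i) p_i` (`MvPolynomial.mul_esymm_eq_sum`,
`Multiset.esymm`, Vieta), so `e_j = E_j` with rational numbers `E_j` defined by the same recursion
from `τ`; so `P = ∑ (-1)^j E_j X^(n-j)`.
Alternative without roots (Faddeev-LeVerrier): with `χ = ∑ c_j X^j` the characteristic polynomial,
the adjugate of `X - θ` is `∑_j X^j ∑_{i > j} c_i θ^(i-j-1)` and its trace is the derivative `χ'`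
(`Matrix.derivative_charpoly`-like lemma: trace of the adjugate), which gives
`(j + 1) c_(j+1) = ∑_{i > j} c_i τ(i-j-1)`, a recursion determining `c_j`, from `c_n = 1` down,
by `τ` because `τ 0 = n`. -/
theorem exists_charpoly {I : Type uI} {K : I → Type v} [∀ l, Field (K l)] [∀ l, CharZero (K l)]
    {V : I → Type w} [∀ l, AddCommGroup (V l)] [∀ l, Module (K l) (V l)]
    [∀ l, FiniteDimensional (K l) (V l)] (θ : ∀ l, Module.End (K l) (V l)) (τ : ℕ → ℚ)
    (h : ∀ l m, LinearMap.trace (K l) (V l) (θ l ^ m) = (τ m : K l)) :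
    ∃ P : ℚ[X], ∀ l, (θ l).charpoly = P.map (algebraMap ℚ (K l)) :=
  Pool.Agent.H79R.exists_charpoly θ τ h

/-- The trace of the restriction of `f` to a stable subspace `U` which is the range of the
projector `p` (`p p = p`) is the trace of `f p`. -/
theorem trace_restrict_range {F : Type v} [Field F] {V : Type w} [AddCommGroup V] [Module F V]
    [FiniteDimensional F V] (f p : Module.End F V) (hp : p * p = p)
    (hf : ∀ x ∈ LinearMap.range p, f x ∈ LinearMap.range p) :
    LinearMap.trace F _ (f.restrict hf) = LinearMap.trace F V (f * p) := by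
  have hp2 : ∀ x, p (p x) = p x := fun x => LinearMap.congr_fun hp x
  have h1 : f.restrict hf = p.rangeRestrict ∘ₗ (f ∘ₗ (LinearMap.range p).subtype) := by
    ext x
    obtain ⟨y, hy⟩ := hf x.1 x.2
    have h2 : p (f x.1) = f x.1 := by
      rw [← hy, hp2]
    exact h2.symm
  rw [h1, LinearMap.trace_comp_comm']
  rfl

/-- In a trace system: if `p` acts as an idempotent in every theory and `f` preserves its range,
the characteristic polynomial of `f` on the range of `p` is rational and independent of the
theory: `trace ((f | range p) ^ m) = trace (f ^ m p) = t (f ^ m p)`. -/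
theorem TS.charpoly_range {A : Type uA} [Ring A] [Algebra ℚ A] {I : Type uI} {K : I → Type v}
    [∀ l, Field (K l)] [∀ l, CharZero (K l)] {V : I → Type w} [∀ l, AddCommGroup (V l)]
    [∀ l, Module (K l) (V l)] [∀ l, FiniteDimensional (K l) (V l)] (T : TS A K V) (f p : A)
    (hp : ∀ l, T.ρ l p * T.ρ l p = T.ρ l p)
    (hf : ∀ l, ∀ x ∈ LinearMap.range (T.ρ l p), T.ρ l f x ∈ LinearMap.range (T.ρ l p)) :
    ∃ P : ℚ[X], ∀ l, CharpolyOn (T.ρ l f) (LinearMap.range (T.ρ l p)) P := by
  obtain ⟨P, hP⟩ := exists_charpoly (fun l => (T.ρ l f).restrict (hf l))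
    (fun m => T.t (f ^ m * p)) (fun l m => by
      have h1 : ∀ x ∈ LinearMap.range (T.ρ l p), ((T.ρ l f) ^ m) x ∈ LinearMap.range (T.ρ l p) :=
        Module.End.pow_apply_mem_of_forall_mem m (hf l)
      rw [Module.End.pow_restrict m (hf l) h1, trace_restrict_range _ _ (hp l) h1, ← map_pow,
        ← map_mul, T.tr])
  exact ⟨P, fun l => ⟨hf l, hP l⟩⟩

end Pool.Agent.H62A
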