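import Pool.Agent.W_a3c811_h62.LA.TS

/-! Semicontinuity of ranks in trace systems, joint quasi-inverses. -/

noncomputable section

namespace Pool.Agent.H62A.TS

open Module

universe uA uI v w

variable {A : Type uA} [Ring A] [Algebra ℚ A] {I : Type uI} {K : I → Type v}
    [∀ l, Field (K l)] [∀ l, CharZero (K l)] {E : I → Type w} [∀ l, AddCommGroup (E l)]
    [∀ l, Module (K l) (E l)] (T : TS A K E)

/-- The rank of an endomorphism. -/
def rk {F : Type v} [Field F] {V : Type w} [AddCommGroup V] [Module F V] (f : Module.End F V) :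
    ℕ := finrank F (LinearMap.range f)

/-- The trace of an idempotent endomorphism is its rank (`LinearMap.IsProj.trace` or
`LinearMap.IsIdempotentElem`). -/
theorem trace_idem {F : Type v} [Field F] {V : Type w} [AddCommGroup V] [Module F V]
    [FiniteDimensional F V] (f : Module.End F V) (h : f * f = f) :
    LinearMap.trace F V f = (rk f : F) := by
  have h' : IsIdempotentElem f := h
  rw [rk, ← (LinearMap.IsIdempotentElem.isProj_range f h').trace]

/-- The divisibility behind `idem_lift`, in commutative rings. -/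
theorem reg_dvd {S : Type} [CommRing S] (y : S) (n : ℕ) :
    (y * y - y) ^ n ∣
      (1 - (1 - y ^ n) ^ n) * (1 - (1 - y ^ n) ^ n) - (1 - (1 - y ^ n) ^ n) := by
  have h1 : y ^ n ∣ 1 - (1 - y ^ n) ^ n := by
    have := sub_dvd_pow_sub_pow (1 : S) (1 - y ^ n) n
    rwa [sub_sub_cancel, one_pow] at this
  have h2 : (y - 1) ^ n ∣ (1 - y ^ n) ^ n := by
    apply pow_dvd_pow_of_dvd
    rw [dvd_sub_comm]
    have := sub_dvd_pow_sub_pow y (1 : S) n
    rwa [one_pow] at this
  have h3 : (y * y - y) ^ n = y ^ n * (y - 1) ^ n := by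
    rw [← mul_pow]
    congr 1
    ring
  have h4 : (1 - (1 - y ^ n) ^ n) * (1 - (1 - y ^ n) ^ n) - (1 - (1 - y ^ n) ^ n)
      = -((1 - (1 - y ^ n) ^ n) * (1 - y ^ n) ^ n) := by ring
  rw [h3, h4, dvd_neg]
  exact mul_dvd_mul h1 h2

/-- Lifting of idempotents: in a ring, if `(x * x - x) ^ n = 0` then `1 - (1 - x ^ n) ^ n` is
idempotent (`x ^ n (1 - x) ^ n = 0`, and `1 - (1 - x ^ n) ^ n` is a multiple of `x ^ n`, while
`(1 - x ^ n) ^ n` is a multiple of `(1 - x) ^ n`, all commuting with each other). -/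
theorem idem_lift {R : Type w} [Ring R] (x : R) (n : ℕ) (h : (x * x - x) ^ n = 0) :
    (1 - (1 - x ^ n) ^ n) * (1 - (1 - x ^ n) ^ n) = 1 - (1 - x ^ n) ^ n := by
  obtain ⟨c, hc⟩ := reg_dvd (Polynomial.X : Polynomial ℤ) n
  have key := congrArg (Polynomial.aeval x) hc
  simp only [map_sub, map_mul, map_pow, map_one, Polynomial.aeval_X] at key
  rw [h, zero_mul, sub_eq_zero] at key
  exact key

theorem reg_rk_mul_le {F : Type v} [Field F] {V : Type w} [AddCommGroup V] [Module F V]
    [FiniteDimensional F V] (f g : Module.End F V) : rk (f * g) ≤ rk g := by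
  rw [rk, rk, Module.End.mul_eq_comp, LinearMap.range_comp]
  exact Submodule.finrank_map_le _ _

/-- Semicontinuity of the rank and joint quasi-inverses.  For every `d` in a trace system there are
a number `r` and an `h` such that, in every theory `l`: the rank of `d` is at least `r`, with
equality if `l` is pure; and if there is equality, then `d h d = d` in the theory `l`.

Proof. Let `h0` with `d h0 d - d ∈ rad` (`semisimple_quot`, `exists_mul_mul_eq`), `x = h0 d`.
Let `n ≥ 1` be a bound for all `finrank (E l)` (they are all equal, `finrank_eq`).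
`x x - x ∈ rad`, so `ρ l (x x - x) ^ n = 0` (`pow_eq_zero`), so by `idem_lift` the element
`e = 1 - (1 - x ^ n) ^ n` of `A` acts as an idempotent in every theory, and `e = g x` with `g` a
polynomial in `x` (`n ≥ 1`).  Modulo `rad`, `x` is idempotent, hence `e - x ∈ rad`, hence
`t e = t x`.  Let `h = g h0`, so `h d = e`. `rk (ρ l e) = trace = t x` for all `l`
(`trace_idem`, and `Nat.cast` is injective), call it `r`.  `rk (ρ l d) ≥ rk (ρ l (h d)) = r`.
If `l` is pure, `ρ l (d h0 d) = ρ l d`, so `rk (ρ l d) ≤ rk (ρ l x)`, and `ρ l x` is an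
idempotent with trace `t x`, so `rk (ρ l d) ≤ r`.
If `rk (ρ l d) = r`: `ker (ρ l d) ≤ ker (ρ l e)` and both have the same dimension, so they are
equal; `ρ l d * (1 - ρ l e) = 0` because the range of `1 - ρ l e` is the kernel of the idempotent
`ρ l e`.  So `ρ l d = ρ l (d h d)`. -/
theorem exists_regular [Nonempty I] [∀ l, FiniteDimensional (K l) (E l)] (d : A) :
    ∃ (r : ℕ) (h : A), (∀ l, r ≤ rk (T.ρ l d)) ∧ (∀ l, T.Pure l → rk (T.ρ l d) = r) ∧
      ∀ l, rk (T.ρ l d) = r → T.ρ l d * T.ρ l h * T.ρ l d = T.ρ l d := by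
  have := T.semisimple_quot
  obtain ⟨h0, hh0⟩ : ∃ h0 : A, d * h0 * d - d ∈ T.rad := by
    obtain ⟨q, hq⟩ := exists_mul_mul_eq (Ideal.Quotient.mk T.rad d)
    obtain ⟨h0, rfl⟩ := Ideal.Quotient.mk_surjective q
    refine ⟨h0, ?_⟩
    rw [← map_mul, ← map_mul, Ideal.Quotient.eq] at hq
    exact hq
  set x : A := h0 * d with hx
  have hxr : x * x - x ∈ T.rad := by
    have : x * x - x = h0 * (d * h0 * d - d) := by rw [hx]; noncomm_ring
    rw [this]
    exact T.rad.mul_mem_left _ hh0
  set l0 : I := Classical.arbitrary I with hl0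
  set n0 : ℕ := finrank (K l0) (E l0) with hn0
  have hfin : ∀ l, finrank (K l) (E l) = n0 := by
    intro l
    have h1 := T.finrank_eq l
    have h2 := T.finrank_eq l0
    rw [← h2] at h1
    exact_mod_cast h1
  have hpow : ∀ l, (T.ρ l x * T.ρ l x - T.ρ l x) ^ (n0 + 1) = 0 := by
    intro l
    have h1 := T.pow_eq_zero hxr l
    rw [hfin l, map_sub, map_mul] at h1
    rw [pow_succ, h1, zero_mul]
  set e : A := 1 - (1 - x ^ (n0 + 1)) ^ (n0 + 1) with he
  have hρe : ∀ l, T.ρ l e = 1 - (1 - T.ρ l x ^ (n0 + 1)) ^ (n0 + 1) := by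
    intro l
    rw [he, map_sub, map_pow, map_sub, map_pow, map_one]
  have hidem : ∀ l, T.ρ l e * T.ρ l e = T.ρ l e := by
    intro l
    rw [hρe l]
    exact idem_lift _ _ (hpow l)
  have hex : e - x ∈ T.rad := by
    rw [← Ideal.Quotient.eq]
    have hX : IsIdempotentElem (Ideal.Quotient.mk T.rad x) := by
      show Ideal.Quotient.mk T.rad x * Ideal.Quotient.mk T.rad x = Ideal.Quotient.mk T.rad x
      rw [← map_mul, Ideal.Quotient.eq]
      exact hxr
    rw [he, map_sub, map_pow, map_sub, map_pow, map_one, hX.pow_succ_eq, hX.one_sub.pow_succ_eq,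
      sub_sub_cancel]
  have hte : T.t e = T.t x := by
    have h1 := hex 1
    rw [one_mul, map_sub, sub_eq_zero] at h1
    exact h1
  have heg : e = ((∑ i ∈ Finset.range (n0 + 1), (1 - x ^ (n0 + 1)) ^ i) * x ^ n0 * h0) * d := by
    have h1 := geom_sum_mul (1 - x ^ (n0 + 1)) (n0 + 1)
    have h2 : e = (∑ i ∈ Finset.range (n0 + 1), (1 - x ^ (n0 + 1)) ^ i) * x ^ (n0 + 1) := by
      have h3 : (1 : A) - x ^ (n0 + 1) - 1 = - x ^ (n0 + 1) := by abel
      rw [h3, mul_neg] at h1
      rw [he, ← neg_sub, ← h1, neg_neg]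
    rw [h2, pow_succ, mul_assoc _ h0 d, mul_assoc]
  set h : A := (∑ i ∈ Finset.range (n0 + 1), (1 - x ^ (n0 + 1)) ^ i) * x ^ n0 * h0 with hh
  have hr : ∀ l, (rk (T.ρ l e) : ℚ) = T.t e := by
    intro l
    have h1 := trace_idem (T.ρ l e) (hidem l)
    rw [T.tr l e] at h1
    exact_mod_cast h1.symm
  have hr0 : ∀ l, rk (T.ρ l e) = rk (T.ρ l0 e) := by
    intro l
    have h1 := hr l
    rw [← hr l0] at h1
    exact_mod_cast h1
  have hρhd : ∀ l, T.ρ l e = T.ρ l h * T.ρ l d := by
    intro l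
    rw [← map_mul, ← heg]
  have hge : ∀ l, rk (T.ρ l0 e) ≤ rk (T.ρ l d) := by
    intro l
    rw [← hr0 l, hρhd l]
    exact reg_rk_mul_le _ _
  refine ⟨rk (T.ρ l0 e), h, hge, ?_, ?_⟩
  · intro l hl
    apply le_antisymm _ (hge l)
    have h1 : T.ρ l d = T.ρ l d * T.ρ l x := by
      have h2 := hl _ hh0
      rw [map_sub, sub_eq_zero, mul_assoc, map_mul] at h2
      exact h2.symm
    have h3 : T.ρ l x * T.ρ l x = T.ρ l x := by
      have h2 := hl _ hxr
      rw [map_sub, sub_eq_zero, map_mul] at h2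
      exact h2
    have h4 : (rk (T.ρ l x) : ℚ) = T.t x := by
      have h1 := trace_idem (T.ρ l x) h3
      rw [T.tr l x] at h1
      exact_mod_cast h1.symm
    have h5 : rk (T.ρ l x) = rk (T.ρ l0 e) := by
      rw [← hte, ← hr l0] at h4
      exact_mod_cast h4
    rw [← h5, h1]
    exact reg_rk_mul_le _ _
  · intro l hl
    have hker : LinearMap.ker (T.ρ l d) ≤ LinearMap.ker (T.ρ l e) := by
      intro v hv
      rw [LinearMap.mem_ker] at hv ⊢
      rw [hρhd l, Module.End.mul_apply, hv, map_zero]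
    have hkereq : LinearMap.ker (T.ρ l d) = LinearMap.ker (T.ρ l e) := by
      apply Submodule.eq_of_le_of_finrank_eq hker
      have h1 := LinearMap.finrank_range_add_finrank_ker (T.ρ l d)
      have h2 := LinearMap.finrank_range_add_finrank_ker (T.ρ l e)
      have h3 : finrank (K l) (LinearMap.range (T.ρ l d)) =
          finrank (K l) (LinearMap.range (T.ρ l e)) := by
        have := hr0 l
        rw [← hl] at this
        exact this.symm
      omega
    ext v
    have hv : v - T.ρ l e v ∈ LinearMap.ker (T.ρ l d) := by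
      rw [hkereq, LinearMap.mem_ker, map_sub, ← Module.End.mul_apply, hidem l, sub_self]
    rw [LinearMap.mem_ker, map_sub, sub_eq_zero] at hv
    rw [mul_assoc, ← hρhd l, Module.End.mul_apply]
    exact hv.symm

/-- If the rank of `d` is everywhere the same as in a pure theory, then `d` has a joint
quasi-inverse. -/
theorem exists_regular_of_rk_eq [Nonempty I] [∀ l, FiniteDimensional (K l) (E l)] (d : A)
    {l0 : I} (h0 : T.Pure l0) (h : ∀ l, rk (T.ρ l d) = rk (T.ρ l0 d)) :
    ∃ h : A, ∀ l, T.ρ l d * T.ρ l h * T.ρ l d = T.ρ l d := by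
  obtain ⟨r, h', _, h2, h3⟩ := T.exists_regular d
  exact ⟨h', fun l => h3 l (by rw [h, h2 l0 h0])⟩

/-- If all theories are pure then every `d` has a joint quasi-inverse. -/
theorem exists_regular_of_pure [Nonempty I] [∀ l, FiniteDimensional (K l) (E l)] (d : A)
    (h0 : ∀ l, T.Pure l) :
    ∃ h : A, ∀ l, T.ρ l d * T.ρ l h * T.ρ l d = T.ρ l d := by
  obtain ⟨r, h', _, h2, h3⟩ := T.exists_regular d
  exact ⟨h', fun l => h3 l (h2 l (h0 l))⟩

theorem rk_le [Nonempty I] [∀ l, FiniteDimensional (K l) (E l)] (d : A) {l0 : I}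
    (h0 : T.Pure l0) (l : I) : rk (T.ρ l0 d) ≤ rk (T.ρ l d) := by
  obtain ⟨r, h', h1, h2, h3⟩ := T.exists_regular d
  rw [h2 l0 h0]
  exact h1 l

end Pool.Agent.H62A.TS
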