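import Pool.Agent.W_a3c811_h62.LA.Reg

/-! The trace system on a family of retracts. -/

noncomputable section

namespace Pool.Agent.H62A.TS

open Module

universe uA uI v w

variable {A : Type uA} [Ring A] [Algebra ℚ A] {I : Type uI} {K : I → Type v}
    [∀ l, Field (K l)] [∀ l, CharZero (K l)] {E : I → Type w} [∀ l, AddCommGroup (E l)]
    [∀ l, Module (K l) (E l)] (T : TS A K E)
    {V : I → Type w} [∀ l, AddCommGroup (V l)] [∀ l, Module (K l) (V l)]

lemma retract_rat (l : I) (q : ℚ) (e : E l) :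
    T.ρ l (algebraMap ℚ A q) e = (q : K l) • e := by
  have h : (T.ρ l).comp (algebraMap ℚ A) =
      (algebraMap (K l) (Module.End (K l) (E l))).comp (algebraMap ℚ (K l)) :=
    Subsingleton.elim _ _
  have h2 := RingHom.congr_fun h q
  rw [RingHom.comp_apply, RingHom.comp_apply, eq_ratCast (algebraMap ℚ (K l))] at h2
  rw [h2]
  rfl

/-- `V l` is, jointly for all theories, the retract of `E l` given by the element `Ω` of `A`. -/
structure Ret (Ω : A) (V : I → Type w) [∀ l, AddCommGroup (V l)] [∀ l, Module (K l) (V l)] where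
  U : ∀ l, E l →ₗ[K l] V l
  S : ∀ l, V l →ₗ[K l] E l
  us : ∀ l, U l ∘ₗ S l = LinearMap.id
  su : ∀ l, S l ∘ₗ U l = T.ρ l Ω

variable {T} {Ω : A} (R : Ret T Ω V)

lemma retract_us (l : I) (v : V l) : R.U l (R.S l v) = v :=
  LinearMap.congr_fun (R.us l) v

lemma retract_su (l : I) (e : E l) : T.ρ l Ω e = R.S l (R.U l e) :=
  (LinearMap.congr_fun (R.su l) e).symm

/-- The elements of `A` which preserve the kernels of the projections `E l → V l`. -/
def Ret.sub : Subalgebra ℚ A where
  carrier := {x | ∀ l, R.U l ∘ₗ T.ρ l x = R.U l ∘ₗ T.ρ l x ∘ₗ T.ρ l Ω}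
  mul_mem' := by
    intro x y hx hy l
    ext e
    have h1 : ∀ e, R.U l (T.ρ l x e) = R.U l (T.ρ l x (R.S l (R.U l e))) := fun e => by
      have h := LinearMap.congr_fun (hx l) e
      simp only [LinearMap.comp_apply] at h
      rw [h, retract_su R]
    have h2 : ∀ e, R.U l (T.ρ l y e) = R.U l (T.ρ l y (R.S l (R.U l e))) := fun e => by
      have h := LinearMap.congr_fun (hy l) e
      simp only [LinearMap.comp_apply] at h
      rw [h, retract_su R]
    simp only [LinearMap.comp_apply]
    rw [map_mul, Module.End.mul_apply, Module.End.mul_apply, retract_su R, h1, h2, ← h1]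
  add_mem' := by
    intro x y hx hy l
    have h1 := hx l
    have h2 := hy l
    rw [map_add, LinearMap.comp_add, LinearMap.add_comp, LinearMap.comp_add, ← h1, ← h2]
  algebraMap_mem' := by
    intro q l
    ext e
    simp only [LinearMap.comp_apply]
    rw [retract_rat T, retract_rat T, map_smul, map_smul, retract_su R, retract_us R]

lemma retract_mem {x : A} (hx : x ∈ R.sub) (l : I) (e : E l) :
    R.U l (T.ρ l x e) = R.U l (T.ρ l x (R.S l (R.U l e))) := by
  have h := LinearMap.congr_fun (hx l) e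
  simp only [LinearMap.comp_apply] at h
  rw [h, retract_su R]

/-- The trace system on the retracts: `x` acts as `U ∘ ρ x ∘ S`, and the trace is `t (x Ω)`.

Multiplicativity: `U x S U y S = U x Ω y S = U x (y S)`, the last step because
`U x Ω = U x` for `x ∈ R.sub`.  (`U Ω = U`, `Ω S = S`.)  `trace (U x S) = trace (x S U) =
trace (x Ω)`. -/
def Ret.ts [Nonempty I] [∀ l, FiniteDimensional (K l) (E l)]
    [∀ l, FiniteDimensional (K l) (V l)] : TS R.sub K V where
  ρ l :=
    { toFun := fun x => R.U l ∘ₗ T.ρ l (x : A) ∘ₗ R.S l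
      map_one' := by
        ext v
        simp only [LinearMap.comp_apply]
        rw [OneMemClass.coe_one, map_one, Module.End.one_apply, Module.End.one_apply, retract_us R]
      map_mul' := by
        intro x y
        ext v
        rw [Module.End.mul_apply]
        simp only [LinearMap.comp_apply]
        rw [MulMemClass.coe_mul, map_mul, Module.End.mul_apply, retract_mem R x.2]
      map_zero' := by
        ext v
        simp only [LinearMap.comp_apply]
        rw [ZeroMemClass.coe_zero, map_zero, LinearMap.zero_apply, map_zero, LinearMap.zero_apply]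
      map_add' := by
        intro x y
        ext v
        rw [LinearMap.add_apply]
        simp only [LinearMap.comp_apply]
        rw [AddMemClass.coe_add, map_add, LinearMap.add_apply, map_add] }
  t := T.t ∘ₗ (LinearMap.mulRight ℚ Ω) ∘ₗ R.sub.val.toLinearMap
  tr := by
    intro l x
    have h1 : LinearMap.trace (K l) (V l) (R.U l ∘ₗ (T.ρ l (x : A) ∘ₗ R.S l)) =
        LinearMap.trace (K l) (E l) ((T.ρ l (x : A) ∘ₗ R.S l) ∘ₗ R.U l) :=
      LinearMap.trace_comp_comm' _ _
    have h2 : (T.ρ l (x : A) ∘ₗ R.S l) ∘ₗ R.U l = T.ρ l ((x : A) * Ω) := by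
      rw [LinearMap.comp_assoc, R.su, map_mul]
      rfl
    have h3 := T.tr l ((x : A) * Ω)
    rw [← h2, ← h1] at h3
    exact h3

lemma Ret.ts_apply [Nonempty I] [∀ l, FiniteDimensional (K l) (E l)]
    [∀ l, FiniteDimensional (K l) (V l)] (l : I) (x : R.sub) :
    R.ts.ρ l x = R.U l ∘ₗ T.ρ l (x : A) ∘ₗ R.S l := rfl

/-- If `θ l ∘ U l = U l ∘ ρ l x` for all `l` then `x ∈ R.sub` and `x` acts as `θ`. -/
lemma Ret.exists_of_comm [Nonempty I] [∀ l, FiniteDimensional (K l) (E l)]
    [∀ l, FiniteDimensional (K l) (V l)] {x : A} {θ : ∀ l, Module.End (K l) (V l)}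
    (h : ∀ l, θ l ∘ₗ R.U l = R.U l ∘ₗ T.ρ l x) :
    ∃ y : R.sub, (y : A) = x ∧ ∀ l, R.ts.ρ l y = θ l := by
  have h1 : ∀ l e, R.U l (T.ρ l x e) = θ l (R.U l e) := fun l e =>
    (LinearMap.congr_fun (h l) e).symm
  refine ⟨⟨x, ?_⟩, rfl, ?_⟩
  · intro l
    ext e
    simp only [LinearMap.comp_apply]
    rw [h1, h1, retract_su R, retract_us R]
  · intro l
    rw [Ret.ts_apply]
    ext v
    simp only [LinearMap.comp_apply]
    rw [h1, retract_us R]

/-- Purity passes to retracts.

Proof. Let `x ∈ R.sub` with `t (y x Ω) = 0` for all `y ∈ R.sub`. For every `y ∈ A` the element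
`Ω y Ω` is in `R.sub` (`ρ l Ω` is idempotent as `S U S U = S U`; `Ω` itself need not be idempotent
in `A`), so `t (Ω y Ω x Ω) = 0`.  The trace of `ρ l (Ω y Ω x Ω)` is
`trace (ρ l (y Ω x Ω Ω)) = trace (ρ l (y (Ω x Ω)))` hence `t (y (Ω x Ω)) = 0` for all `y ∈ A`
(compare traces in the theory `l`).  By purity `ρ l (Ω x Ω) = 0`, and
`U x S = U Ω x Ω S = 0`. -/
theorem Ret.pure [Nonempty I] [∀ l, FiniteDimensional (K l) (E l)]
    [∀ l, FiniteDimensional (K l) (V l)] {l : I} (h : T.Pure l) : R.ts.Pure l := by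
  intro x hx
  have hidem : ∀ (l : I) (e : E l), T.ρ l Ω (T.ρ l Ω e) = T.ρ l Ω e := by
    intro l e
    rw [retract_su R l e, retract_su R l, retract_us R]
  have h1 : ∀ y : A, Ω * y * Ω ∈ R.sub := by
    intro y l
    ext e
    simp only [LinearMap.comp_apply]
    rw [map_mul, map_mul, Module.End.mul_apply, Module.End.mul_apply, Module.End.mul_apply,
      Module.End.mul_apply, hidem]
  have h2 : ∀ y : A, T.t (y * (Ω * x * Ω)) = 0 := by
    intro y
    have h3 : T.t (Ω * y * Ω * x * Ω) = 0 := hx ⟨Ω * y * Ω, h1 y⟩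
    have h4 : LinearMap.trace (K l) (E l) (T.ρ l (Ω * y * Ω * x * Ω)) =
        LinearMap.trace (K l) (E l) (T.ρ l (y * (Ω * x * Ω))) := by
      have h5 : Ω * y * Ω * x * Ω = Ω * (y * (Ω * x * Ω)) := by
        simp only [mul_assoc]
      rw [h5, map_mul, LinearMap.trace_mul_comm]
      congr 1
      ext e
      rw [Module.End.mul_apply, map_mul, map_mul, Module.End.mul_apply, Module.End.mul_apply,
        Module.End.mul_apply, Module.End.mul_apply, hidem]
    rw [T.tr, T.tr, h3] at h4
    have h6 : ((T.t (y * (Ω * x * Ω)) : ℚ) : K l) = ((0 : ℚ) : K l) := h4.symm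
    exact_mod_cast h6
  have h3 := h _ h2
  rw [Ret.ts_apply]
  ext v
  have h4 := LinearMap.congr_fun h3 (R.S l v)
  rw [map_mul, map_mul, Module.End.mul_apply, Module.End.mul_apply, LinearMap.zero_apply,
    retract_su R l (R.S l v), retract_us R, retract_su R l] at h4
  have h5 := congrArg (R.U l) h4
  rw [retract_us R, map_zero] at h5
  simp only [LinearMap.comp_apply]
  rw [h5, LinearMap.zero_apply]

end Pool.Agent.H62A.TS
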