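import Mathlib

/-! Trace systems: a `ℚ`-algebra acting on vector spaces over various fields of characteristic zero,
with rational traces which do not depend on the field. -/

noncomputable section

namespace Pool.Agent.H62A

open Module

universe uA uI v w

/-- A trace system: a family of representations `ρ l` of the `ℚ`-algebra `A` on `K l`-vector
spaces `E l` whose traces are given by one `ℚ`-linear form `t`. -/
structure TS (A : Type uA) [Ring A] [Algebra ℚ A] {I : Type uI} (K : I → Type v)
    [∀ l, Field (K l)] [∀ l, CharZero (K l)] (E : I → Type w) [∀ l, AddCommGroup (E l)]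
    [∀ l, Module (K l) (E l)] where
  ρ : ∀ l, A →+* Module.End (K l) (E l)
  t : A →ₗ[ℚ] ℚ
  tr : ∀ l x, LinearMap.trace (K l) (E l) (ρ l x) = ((t x : ℚ) : K l)

namespace TS

variable {A : Type uA} [Ring A] [Algebra ℚ A] {I : Type uI} {K : I → Type v}
    [∀ l, Field (K l)] [∀ l, CharZero (K l)] {E : I → Type w} [∀ l, AddCommGroup (E l)]
    [∀ l, Module (K l) (E l)] (T : TS A K E)

/-- `l` is pure if every numerically trivial element acts as zero in the theory `l`. -/
def Pure (l : I) : Prop := ∀ x, (∀ y, T.t (y * x) = 0) → T.ρ l x = 0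

theorem TS_nilp (n : ℕ) : ∀ {F : Type v} [Field F] [CharZero F] {V : Type w} [AddCommGroup V]
    [Module F V] [FiniteDimensional F V] (f : Module.End F V), finrank F V = n →
    (∀ k : ℕ, 0 < k → LinearMap.trace F V (f ^ k) = 0) → IsNilpotent f := by
  induction n using Nat.strong_induction_on with
  | _ n ih =>
  intro F _ _ V _ _ _ f hn h
  rcases Nat.eq_zero_or_pos n with h0 | h0
  · subst h0
    have : Subsingleton V := finrank_zero_iff.1 hn
    exact ⟨1, Subsingleton.elim _ _⟩
  -- the constant coefficient of the characteristic polynomial is zero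
  have hch : f.charpoly.coeff 0 = 0 := by
    have h1 := LinearMap.aeval_self_charpoly f
    rw [Polynomial.aeval_eq_sum_range] at h1
    have h2 := congrArg (LinearMap.trace F V) h1
    rw [map_sum, map_zero, Finset.sum_range_succ'] at h2
    have h3 : ∑ k ∈ Finset.range f.charpoly.natDegree,
        LinearMap.trace F V (f.charpoly.coeff (k + 1) • f ^ (k + 1)) = 0 := by
      refine Finset.sum_eq_zero fun k _ => ?_
      rw [map_smul, h (k + 1) (Nat.succ_pos k), smul_zero]
    rw [h3, zero_add, pow_zero, map_smul, LinearMap.trace_one, smul_eq_mul] at h2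
    rcases mul_eq_zero.1 h2 with h4 | h4
    · exact h4
    · rw [hn] at h4
      exact absurd (Nat.cast_eq_zero.1 h4) h0.ne'
  have hdet : LinearMap.det f = 0 := by
    rw [LinearMap.det_eq_sign_charpoly_coeff, hch, mul_zero]
  have hrange : LinearMap.range f < ⊤ := LinearMap.range_lt_top_of_det_eq_zero hdet
  have hfr : finrank F (LinearMap.range f) < n := by
    rw [← hn]
    exact Submodule.finrank_lt hrange.ne
  have hmem : ∀ x ∈ LinearMap.range f, f x ∈ LinearMap.range f := fun x _ => ⟨x, rfl⟩
  have hpow : ∀ k : ℕ, 0 < k → ∀ x, (f ^ k) x ∈ LinearMap.range f := by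
    intro k hk x
    obtain ⟨j, rfl⟩ : ∃ j, k = j + 1 := ⟨k - 1, by omega⟩
    rw [pow_succ', Module.End.mul_apply]
    exact ⟨_, rfl⟩
  have hnil : IsNilpotent (f.restrict hmem) := by
    refine ih _ hfr (f.restrict hmem) rfl fun k hk => ?_
    have h5 := Module.End.pow_restrict (f' := f) k hmem
    rw [h5, LinearMap.trace_restrict_eq_of_forall_mem _ _ (hpow k hk)]
    exact h k hk
  obtain ⟨k, hk⟩ := hnil
  refine ⟨k + 1, ?_⟩
  ext x
  have h6 := Module.End.pow_restrict (f' := f) k hmem
  rw [hk] at h6
  have h7 := congrArg (fun g => ((g ⟨f x, ⟨x, rfl⟩⟩ : LinearMap.range f) : V)) h6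
  rw [pow_succ, Module.End.mul_apply]
  simpa using h7.symm

/-- An endomorphism of a finite-dimensional space over a field of characteristic zero all of whose
positive powers have trace zero is nilpotent.

Proof. Over an algebraic closure (`LinearMap.baseChange`, or matrices) the roots `μ` of the
characteristic polynomial satisfy `∑ μ ^ n = 0` for all `n ≥ 1`, hence all `μ = 0`; e.g. let
`μ_1, ..., μ_r` be the distinct nonzero roots with multiplicities `m_i > 0`; then
`∑ m_i μ_i ^ n = 0` for `n = 1, ..., r`, Vandermonde gives `m_i μ_i = 0`, contradiction.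
Alternative: by strong induction on the dimension: by Cayley-Hamilton
`∑ c_j f ^ j = 0`, taking traces gives `c_0 * dim V = 0`, so `det f = 0` and `f` is not surjective;
`trace (f ^ n) = trace (f ^ n | range f)` (for `n ≥ 1`), so `f | range f` is nilpotent by
induction.  (See also `W_MP_868bb7_h79/Smash.lean`, which may contain such a lemma.) -/
theorem isNilpotent_of_trace {F : Type v} [Field F] [CharZero F] {V : Type w} [AddCommGroup V]
    [Module F V] [FiniteDimensional F V] (f : Module.End F V)
    (h : ∀ n : ℕ, 0 < n → LinearMap.trace F V (f ^ n) = 0) : f ^ finrank F V = 0 := by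
  have h1 := TS_nilp _ f rfl h
  have h2 := (LinearMap.isNilpotent_iff_charpoly f).1 h1
  have h3 := LinearMap.aeval_self_charpoly f
  rw [h2] at h3
  simpa using h3

lemma t_comm [Nonempty I] (x y : A) : T.t (x * y) = T.t (y * x) := by
  obtain ⟨l⟩ := ‹Nonempty I›
  have h : ((T.t (x * y) : ℚ) : K l) = ((T.t (y * x) : ℚ) : K l) := by
    rw [← T.tr, ← T.tr, map_mul (T.ρ l) x y, map_mul (T.ρ l) y x, LinearMap.trace_mul_comm]
  exact_mod_cast h

lemma finrank_eq [∀ l, FiniteDimensional (K l) (E l)] (l : I) :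
    (finrank (K l) (E l) : ℚ) = T.t 1 := by
  have h : ((finrank (K l) (E l) : ℚ) : K l) = ((T.t 1 : ℚ) : K l) := by
    rw [← T.tr, map_one, LinearMap.trace_one]
    push_cast
    rfl
  exact_mod_cast h

/-- The ideal of numerically trivial elements. -/
def rad : Ideal A where
  carrier := {x | ∀ y, T.t (y * x) = 0}
  add_mem' := by
    intro a b ha hb y
    rw [mul_add, map_add, ha, hb, add_zero]
  zero_mem' := fun y => by simp
  smul_mem' := by
    intro c x hx y
    rw [smul_eq_mul, ← mul_assoc]
    exact hx _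

instance [Nonempty I] : T.rad.IsTwoSided where
  mul_mem_of_left := by
    intro a b ha y
    rw [T.t_comm, mul_assoc, T.t_comm]
    exact ha _

/-- Numerically trivial elements are nilpotent in every theory: `t (x ^ n) = 0` for `n ≥ 1`. -/
lemma pow_eq_zero [∀ l, FiniteDimensional (K l) (E l)] {x : A} (hx : x ∈ T.rad) (l : I) :
    T.ρ l x ^ finrank (K l) (E l) = 0 := by
  refine isNilpotent_of_trace _ fun n hn => ?_
  obtain ⟨j, rfl⟩ : ∃ j, n = j + 1 := ⟨n - 1, by omega⟩
  have h1 : T.t (x ^ j * x) = 0 := hx (x ^ j)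
  rw [← map_pow, T.tr, pow_succ, h1, Rat.cast_zero]

/-- `A / rad` is a finite-dimensional `ℚ`-algebra.

Proof. Fix `l`. The `K l`-span of `ρ l (A)` in `End (E l)` is spanned by finitely many
`ρ l (y_i)`, `i < m`, `y_i ∈ A`. The `ℚ`-linear map `A → ℚ^m`, `x ↦ (t (y_i x))_i`, has kernel
`rad`: if all `t (y_i x) = 0` and `y ∈ A`, write `ρ l y = ∑ c_i ρ l y_i`; then
`(t (y x) : K l) = trace (ρ l y * ρ l x) = ∑ c_i trace (ρ l (y_i x)) = 0`.  So the
`ℚ`-linear map `A / rad → ℚ^m` induced by it is injective. -/
theorem finite_quot [Nonempty I] [∀ l, FiniteDimensional (K l) (E l)] :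
    Module.Finite ℚ (A ⧸ T.rad) := by
  obtain ⟨l⟩ := ‹Nonempty I›
  have hfg : (Submodule.span (K l) (Set.range (T.ρ l))).FG :=
    IsNoetherian.noetherian _
  obtain ⟨s', hs', hspan⟩ := (Submodule.fg_span_iff_fg_span_finset_subset _).1 hfg
  have hch : ∀ g : s', ∃ y : A, T.ρ l y = g.1 := fun g => hs' g.2
  choose y hy using hch
  let φ : A →ₗ[ℚ] (s' → ℚ) := LinearMap.pi fun g => T.t.comp (LinearMap.mulLeft ℚ (y g))
  have hφ : ∀ x, φ x = 0 ↔ x ∈ T.rad := by
    intro x
    constructor
    · intro hx z
      have h1 : ∀ g ∈ Submodule.span (K l) (Set.range (T.ρ l)),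
          LinearMap.trace (K l) (E l) (g * T.ρ l x) = 0 := by
        rw [hspan]
        intro g hg
        induction hg using Submodule.span_induction with
        | mem g hg =>
          have h2 : φ x ⟨g, hg⟩ = 0 := by rw [hx]; rfl
          have h3 : T.t (y ⟨g, hg⟩ * x) = 0 := h2
          have h4 : g = T.ρ l (y ⟨g, hg⟩) := (hy ⟨g, hg⟩).symm
          rw [h4, ← map_mul, T.tr, h3, Rat.cast_zero]
        | zero => rw [zero_mul, map_zero]
        | add a b _ _ ha hb => rw [add_mul, map_add, ha, hb, add_zero]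
        | smul c a _ ha => rw [smul_mul_assoc, map_smul, ha, smul_zero]
      have h5 := h1 (T.ρ l z) (Submodule.subset_span ⟨z, rfl⟩)
      rw [← map_mul, T.tr] at h5
      exact_mod_cast h5
    · intro hx
      funext g
      exact hx (y g)
  have hker : LinearMap.ker φ = T.rad.restrictScalars ℚ := by
    ext x
    rw [LinearMap.mem_ker, hφ, Submodule.restrictScalars_mem]
  have h6 : Module.Finite ℚ (A ⧸ LinearMap.ker φ) :=
    Module.Finite.equiv (LinearMap.quotKerEquivRange φ).symm
  rw [hker] at h6
  exact Module.Finite.equiv (Submodule.Quotient.restrictScalarsEquiv ℚ T.rad)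

/-- `A / rad` is semisimple (Jannsen).

Proof. It is artinian (finite-dimensional over `ℚ`), so it is enough that its Jacobson radical is
zero (`IsArtinianRing.isSemisimpleRing_iff_jacobson` or similar), and the Jacobson radical is
nilpotent. Let `x ∈ A` be in the preimage of the Jacobson radical and `y ∈ A`. Then `y x` is
nilpotent modulo `rad`, so `ρ l (y x)` is nilpotent by `pow_eq_zero`, so its trace is zero
(`LinearMap.isNilpotent_trace_of_isNilpotent`), i.e. `t (y x) = 0`. So `x ∈ rad`. -/
theorem semisimple_quot [Nonempty I] [∀ l, FiniteDimensional (K l) (E l)] :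
    IsSemisimpleRing (A ⧸ T.rad) := by
  have hfin : Module.Finite ℚ (A ⧸ T.rad) := T.finite_quot
  have hart : IsArtinianRing (A ⧸ T.rad) := isArtinian_of_tower ℚ inferInstance
  rw [IsArtinianRing.isSemisimpleRing_iff_jacobson, eq_bot_iff]
  intro q hq
  obtain ⟨n, hn⟩ : IsNilpotent (Ring.jacobson (A ⧸ T.rad)) := IsSemiprimaryRing.isNilpotent
  obtain ⟨x, rfl⟩ := Ideal.Quotient.mk_surjective q
  rw [Submodule.mem_bot, Ideal.Quotient.eq_zero_iff_mem]
  intro y
  obtain ⟨l⟩ := ‹Nonempty I›
  have h1 : Ideal.Quotient.mk T.rad (y * x) ∈ Ring.jacobson (A ⧸ T.rad) := by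
    rw [map_mul]
    exact Ideal.mul_mem_left _ _ hq
  have h2 : (Ideal.Quotient.mk T.rad (y * x)) ^ n = 0 := by
    have h3 := Ideal.pow_mem_pow h1 n
    rw [hn] at h3
    simpa using h3
  have h4 : (y * x) ^ n ∈ T.rad := by
    rw [← Ideal.Quotient.eq_zero_iff_mem, map_pow, h2]
  have h5 : IsNilpotent (T.ρ l (y * x)) := by
    refine ⟨n * finrank (K l) (E l), ?_⟩
    rw [pow_mul, ← map_pow]
    exact T.pow_eq_zero h4 l
  have h6 := (LinearMap.isNilpotent_trace_of_isNilpotent h5).eq_zero
  rw [T.tr] at h6
  exact_mod_cast h6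

/-- A semisimple ring is von Neumann regular
(`IsSemisimpleRing.ideal_eq_span_idempotent` for the left ideal generated by `d`:
`R d = R e` with `e` idempotent, `e = h d`, `d = d e`). -/
theorem exists_mul_mul_eq {R : Type uA} [Ring R] [IsSemisimpleRing R] (d : R) :
    ∃ h : R, d * h * d = d := by
  obtain ⟨e, he, hspan⟩ := IsSemisimpleRing.ideal_eq_span_idempotent (Ideal.span {d})
  have h1 : e ∈ Ideal.span ({d} : Set R) := by
    rw [hspan]
    exact Ideal.subset_span rfl
  have h2 : d ∈ Ideal.span ({e} : Set R) := by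
    rw [← hspan]
    exact Ideal.subset_span rfl
  obtain ⟨h, hh⟩ := Submodule.mem_span_singleton.1 h1
  obtain ⟨c, hc⟩ := Submodule.mem_span_singleton.1 h2
  rw [smul_eq_mul] at hh hc
  refine ⟨h, ?_⟩
  calc d * h * d = d * (h * d) := by rw [mul_assoc]
    _ = (c * e) * e := by rw [hh, hc]
    _ = c * (e * e) := by rw [mul_assoc]
    _ = c * e := by rw [he.eq]
    _ = d := hc

end TS

end Pool.Agent.H62A
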